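import Pool.Agent.N378.KH.Stm

/-!
# Smoothed number of k-hyperplanes in all dimensions: assembly
-/

set_option autoImplicit false

open MeasureTheory Finset
open scoped ENNReal

namespace Pool.Agent.N378.KH

variable {n m : ℕ}

/-- the heights of the points outside `Q` do not depend on the `j`-th coordinates of the points in
`Q` -/
lemma ht_update (j : Fin (m + 1)) (a : Fin m → ℝ) (Q : Finset (Fin n))
    (x : Fin n × Fin (m + 1) → ℝ) (y : (Q ×ˢ {j} : Finset (Fin n × Fin (m + 1))) → ℝ)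
    {i : Fin n} (hi : i ∉ Q) :
    ht j a (Function.updateFinset x (Q ×ˢ {j}) y) i = ht j a x i := by
  have h : ∀ l, Function.updateFinset x (Q ×ˢ {j}) y (i, l) = x (i, l) := by
    intro l
    rw [Function.updateFinset, dif_neg]
    simp [hi]
  simp only [ht, h]

lemma below_update (j : Fin (m + 1)) (s : ℝ) (a : Fin m → ℝ) (Q : Finset (Fin n))
    (x : Fin n × Fin (m + 1) → ℝ) (y : (Q ×ˢ {j} : Finset (Fin n × Fin (m + 1))) → ℝ)
    {p : Fin n} (hp : p ∉ Q) :
    below j s a (Function.updateFinset x (Q ×ˢ {j}) y) Q p = below j s a x Q p := by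
  ext i
  simp only [below, Finset.mem_filter, Finset.mem_univ, true_and]
  constructor
  · rintro ⟨h1, h2⟩
    rw [ht_update j a Q x y h1, ht_update j a Q x y hp] at h2
    exact ⟨h1, h2⟩
  · rintro ⟨h1, h2⟩
    rw [ht_update j a Q x y h1, ht_update j a Q x y hp]
    exact ⟨h1, h2⟩

lemma slopes_update (j : Fin (m + 1)) (s : ℝ) (k : ℕ) (Q : Finset (Fin n))
    (x : Fin n × Fin (m + 1) → ℝ) (y : (Q ×ˢ {j} : Finset (Fin n × Fin (m + 1))) → ℝ)
    {p : Fin n} (hp : p ∉ Q) :
    slopes j s k Q p (Function.updateFinset x (Q ×ˢ {j}) y) = slopes j s k Q p x := by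
  ext a
  simp only [slopes, Set.mem_setOf_eq, below_update j s a Q x y hp]

lemma marg_ind {ι : Type} [Fintype ι] [DecidableEq ι] (ν : ι → Measure ℝ) (S : Finset ι)
    {E : Set (ι → ℝ)} (hE : MeasurableSet E) (x : ι → ℝ) :
    (∫⋯∫⁻_S, E.indicator (fun _ => 1) ∂ν) x =
      Measure.pi (fun e : S => ν e) {y | Function.updateFinset x S y ∈ E} := by
  have hmu : Measurable fun y : S → ℝ => Function.updateFinset x S y := measurable_updateFinset
  have hmS : MeasurableSet {y : S → ℝ | Function.updateFinset x S y ∈ E} := hmu hE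
  rw [lmarginal]
  have h3 : ∀ y : S → ℝ, E.indicator (fun _ => (1 : ℝ≥0∞)) (Function.updateFinset x S y) =
      ({y : S → ℝ | Function.updateFinset x S y ∈ E}).indicator (fun _ => (1 : ℝ≥0∞)) y := by
    intro y
    by_cases h : Function.updateFinset x S y ∈ E
    · rw [Set.indicator_of_mem h, Set.indicator_of_mem]
      exact h
    · rw [Set.indicator_of_notMem h, Set.indicator_of_notMem]
      exact h
  rw [lintegral_congr h3, lintegral_indicator_const hmS, one_mul]

lemma marg_const {ι : Type} [Fintype ι] [DecidableEq ι] (ν : ι → Measure ℝ)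
    (hν : ∀ i, IsProbabilityMeasure (ν i)) (S : Finset ι)
    {g : (ι → ℝ) → ℝ≥0∞} (x : ι → ℝ) (hg : ∀ y, g (Function.updateFinset x S y) = g x) :
    (∫⋯∫⁻_S, g ∂ν) x = g x := by
  rw [lmarginal]
  simp only [hg]
  have : IsProbabilityMeasure (Measure.pi fun e : S => ν e) := by infer_instance
  rw [lintegral_const, measure_univ, mul_one]

/-- the probability of the event -/
lemma prob_le (hM : S_MEAS) (hV : S_MV) (hP : S_PIM) (hL : S_LIN) (k : ℕ) (D : ℝ)
    (ν : Fin n × Fin (m + 1) → Measure ℝ) (hD : 0 < D) (hν : Law D ν) (j : Fin (m + 1)) (s : ℝ)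
    (Q : Finset (Fin n)) (hQ : Q.card = m) (p : Fin n) (hp : p ∉ Q) :
    Measure.pi ν (Ev j s k Q p) ≤ ENNReal.ofReal D ^ m * ENNReal.ofReal (m.factorial * 2 ^ m) *
      ∫⁻ x, volume (slopes j s k Q p x) ∂Measure.pi ν := by
  haveI := hν.1
  have hmE : MeasurableSet (Ev (n := n) (m := m) j s k Q p) := hM n m k j s Q p
  have hmV : Measurable fun x : Fin n × Fin (m + 1) → ℝ => volume (slopes j s k Q p x) :=
    (hV n m k j s Q p).2
  have h0 : Measure.pi ν (Ev j s k Q p) =
      ∫⁻ x, (Ev j s k Q p).indicator (fun _ => 1) x ∂Measure.pi ν := by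
    rw [lintegral_indicator_const hmE, one_mul]
  rw [h0, ← lintegral_const_mul _ hmV]
  refine lintegral_le_of_lmarginal_le (Q ×ˢ {j} : Finset (Fin n × Fin (m + 1)))
    (measurable_const.indicator hmE) (hmV.const_mul _) ?_
  intro x
  have hcard : (Q ×ˢ {j} : Finset (Fin n × Fin (m + 1))).card = m := by
    rw [Finset.card_product, Finset.card_singleton, mul_one, hQ]
  have h1 := marg_ind ν (Q ×ˢ {j} : Finset (Fin n × Fin (m + 1))) hmE x
  have h2 := marg_const ν hν.1 (Q ×ˢ {j} : Finset (Fin n × Fin (m + 1)))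
    (g := fun x => ENNReal.ofReal D ^ m * ENNReal.ofReal (m.factorial * 2 ^ m) *
        volume (slopes j s k Q p x)) x (fun y => by rw [slopes_update j s k Q x y hp])
  rw [h1, h2]
  refine le_trans (hP n m D ν hD hν _ _) ?_
  rw [Measure.smul_apply, smul_eq_mul, hcard, mul_assoc]
  gcongr
  exact hL n m k j s Q p hQ hp x

/-- the sum over `p` -/
lemma sum_prob_le (hM : S_MEAS) (hV : S_MV) (hP : S_PIM) (hL : S_LIN) (hR : S_RANK) (hDi : S_DIST)
    (k : ℕ) (D : ℝ) (ν : Fin n × Fin (m + 1) → Measure ℝ) (hD : 0 < D) (hν : Law D ν)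
    (j : Fin (m + 1)) (s : ℝ) (hs : s ≠ 0) (Q : Finset (Fin n)) (hQ : Q.card = m) :
    ∑ p ∈ Qᶜ, Measure.pi ν (Ev j s k Q p) ≤
      ENNReal.ofReal D ^ m * ENNReal.ofReal (m.factorial * 2 ^ m) * 2 ^ m := by
  haveI := hν.1
  have hmV : ∀ p, Measurable fun x : Fin n × Fin (m + 1) → ℝ => volume (slopes j s k Q p x) :=
    fun p => (hV n m k j s Q p).2
  calc ∑ p ∈ Qᶜ, Measure.pi ν (Ev j s k Q p)
      ≤ ∑ p ∈ Qᶜ, ENNReal.ofReal D ^ m * ENNReal.ofReal (m.factorial * 2 ^ m) *
        ∫⁻ x, volume (slopes j s k Q p x) ∂Measure.pi ν :=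
        Finset.sum_le_sum fun p hp => prob_le hM hV hP hL k D ν hD hν j s Q hQ p
          (Finset.mem_compl.1 hp)
    _ = ENNReal.ofReal D ^ m * ENNReal.ofReal (m.factorial * 2 ^ m) *
        ∫⁻ x, ∑ p ∈ Qᶜ, volume (slopes j s k Q p x) ∂Measure.pi ν := by
        rw [lintegral_finsetSum _ fun p _ => hmV p, Finset.mul_sum]
    _ ≤ ENNReal.ofReal D ^ m * ENNReal.ofReal (m.factorial * 2 ^ m) *
        ∫⁻ _, 2 ^ m ∂Measure.pi ν := by
        refine mul_le_mul' le_rfl (lintegral_mono_ae ?_)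
        filter_upwards [hDi n m D ν hD hν] with x hx
        exact hR n m k j s Q hs x hx.2
    _ = _ := by
        rw [lintegral_const, measure_univ, mul_one]

/-- regrouping the pairs `(Q, p)` by `T = insert p Q` -/
lemma regroup (F : Finset (Fin n) → Fin n → ℝ≥0∞) :
    ∑ T ∈ (Finset.univ : Finset (Fin n)).powersetCard (m + 1), ∑ p ∈ T, F (T.erase p) p =
      ∑ Q ∈ (Finset.univ : Finset (Fin n)).powersetCard m, ∑ p ∈ Qᶜ, F Q p := by
  classical
  rw [Finset.sum_sigma', Finset.sum_sigma']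
  refine Finset.sum_bij' (fun a _ => (⟨a.1.erase a.2, a.2⟩ : (_ : Finset (Fin n)) × Fin n))
    (fun a _ => (⟨insert a.2 a.1, a.2⟩ : (_ : Finset (Fin n)) × Fin n)) ?_ ?_ ?_ ?_ ?_
  · rintro ⟨T, p⟩ h
    simp only [Finset.mem_sigma, Finset.mem_powersetCard_univ, Finset.mem_compl] at h ⊢
    refine ⟨?_, Finset.notMem_erase p T⟩
    rw [Finset.card_erase_of_mem h.2, h.1]
    rfl
  · rintro ⟨Q, p⟩ h
    simp only [Finset.mem_sigma, Finset.mem_powersetCard_univ, Finset.mem_compl] at h ⊢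
    exact ⟨by rw [Finset.card_insert_of_notMem h.2, h.1], Finset.mem_insert_self p Q⟩
  · rintro ⟨T, p⟩ h
    simp only [Finset.mem_sigma] at h
    simp only [Finset.insert_erase h.2]
  · rintro ⟨Q, p⟩ h
    simp only [Finset.mem_sigma, Finset.mem_compl] at h
    simp only [Finset.erase_insert h.2]
  · rintro ⟨T, p⟩ _
    rfl

/-- the sign -/
def sg (b : Bool) : ℝ := if b then 1 else -1

/-- the number of the k-hyperplanes is bounded by the number of the events -/
lemma card_le (hC : S_COV) (k : ℕ) (x : Fin n × Fin (m + 1) → ℝ) (hx : ∀ e, |x e| ≤ 1) :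
    ((m + 1 : ℕ) : ℝ≥0∞) * (Nat.card {T : Finset (Fin n) // IsKH x k T} : ℝ≥0∞) ≤
      ∑ c : Fin (m + 1) × Bool, ∑ Q ∈ (Finset.univ : Finset (Fin n)).powersetCard m,
        ∑ p ∈ Qᶜ, (Ev c.1 (sg c.2) k Q p).indicator (fun _ => (1 : ℝ≥0∞)) x := by
  classical
  have h0 : (Nat.card {T : Finset (Fin n) // IsKH x k T} : ℝ≥0∞) =
      ∑ T ∈ (Finset.univ : Finset (Finset (Fin n))).filter (fun T => IsKH x k T), (1 : ℝ≥0∞) := by
    rw [Nat.card_eq_fintype_card, Fintype.card_subtype, Finset.sum_const, nsmul_one]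
  rw [h0, Finset.mul_sum]
  simp only [mul_one]
  have h1 : ∀ c : Fin (m + 1) × Bool,
      ∑ Q ∈ (Finset.univ : Finset (Fin n)).powersetCard m,
        ∑ p ∈ Qᶜ, (Ev c.1 (sg c.2) k Q p).indicator (fun _ => (1 : ℝ≥0∞)) x =
      ∑ T ∈ (Finset.univ : Finset (Fin n)).powersetCard (m + 1), ∑ p ∈ T,
        (Ev c.1 (sg c.2) k (T.erase p) p).indicator (fun _ => (1 : ℝ≥0∞)) x := fun c =>
    (regroup (fun Q p => (Ev c.1 (sg c.2) k Q p).indicator (fun _ => (1 : ℝ≥0∞)) x)).symm
  simp only [h1]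
  rw [Finset.sum_comm]
  calc ∑ T ∈ (Finset.univ : Finset (Finset (Fin n))).filter (fun T => IsKH x k T),
        ((m + 1 : ℕ) : ℝ≥0∞)
      ≤ ∑ T ∈ (Finset.univ : Finset (Finset (Fin n))).filter (fun T => IsKH x k T),
        ∑ c : Fin (m + 1) × Bool, ∑ p ∈ T,
          (Ev c.1 (sg c.2) k (T.erase p) p).indicator (fun _ => (1 : ℝ≥0∞)) x := by
        refine Finset.sum_le_sum fun T hT => ?_
        have hT2 : IsKH x k T := (Finset.mem_filter.1 hT).2
        obtain ⟨j, b, hb⟩ := hC n m k x hx T hT2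
        refine le_trans ?_ (Finset.single_le_sum
          (f := fun c : Fin (m + 1) × Bool => ∑ p ∈ T,
            (Ev c.1 (sg c.2) k (T.erase p) p).indicator (fun _ => (1 : ℝ≥0∞)) x)
          (fun _ _ => zero_le) (Finset.mem_univ (j, b)))
        have h2 : ∑ p ∈ T, (Ev (j, b).1 (sg (j, b).2) k (T.erase p) p).indicator
            (fun _ => (1 : ℝ≥0∞)) x = ∑ p ∈ T, 1 := by
          refine Finset.sum_congr rfl fun p hp => ?_
          exact Set.indicator_of_mem (hb p hp) _
        rw [h2, Finset.sum_const, hT2.1, nsmul_one]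
    _ ≤ _ := by
        refine Finset.sum_le_sum_of_subset_of_nonneg ?_ (fun _ _ _ => zero_le)
        intro T hT
        rw [Finset.mem_powersetCard_univ]
        exact (Finset.mem_filter.1 hT).2.1

/-- the assembly -/
theorem main (hC : S_COV) (hM : S_MEAS) (hV : S_MV) (hP : S_PIM) (hL : S_LIN) (hR : S_RANK)
    (hDi : S_DIST) : S_MAIN := by
  intro n m k D ν hD hν
  haveI := hν.1
  set I := ∫⁻ x, (Nat.card {T : Finset (Fin n) // IsKH x k T} : ℝ≥0∞) ∂Measure.pi ν with hI
  have h1 : ((m + 1 : ℕ) : ℝ≥0∞) * I ≤ ((m + 1 : ℕ) : ℝ≥0∞) * ENNReal.ofReal (2 * (4 * D * n) ^ m) := by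
    calc ((m + 1 : ℕ) : ℝ≥0∞) * I
        ≤ ∫⁻ x, ((m + 1 : ℕ) : ℝ≥0∞) * (Nat.card {T : Finset (Fin n) // IsKH x k T} : ℝ≥0∞)
          ∂Measure.pi ν := by
          rw [hI]
          exact lintegral_const_mul_le _ _
      _ ≤ ∫⁻ x, ∑ c : Fin (m + 1) × Bool, ∑ Q ∈ (Finset.univ : Finset (Fin n)).powersetCard m,
          ∑ p ∈ Qᶜ, (Ev c.1 (sg c.2) k Q p).indicator (fun _ => (1 : ℝ≥0∞)) x ∂Measure.pi ν := by
          refine lintegral_mono_ae ?_
          filter_upwards [hDi n m D ν hD hν] with x hx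
          exact card_le hC k x hx.1
      _ = ∑ c : Fin (m + 1) × Bool, ∑ Q ∈ (Finset.univ : Finset (Fin n)).powersetCard m,
          ∑ p ∈ Qᶜ, Measure.pi ν (Ev c.1 (sg c.2) k Q p) := by
          have hi : ∀ (c : Fin (m + 1) × Bool) (Q : Finset (Fin n)) (p : Fin n),
              Measurable fun x => (Ev c.1 (sg c.2) k Q p).indicator (fun _ => (1 : ℝ≥0∞)) x :=
            fun c Q p => measurable_const.indicator (hM n m k c.1 (sg c.2) Q p)
          rw [lintegral_finsetSum _ fun c _ => Finset.measurable_sum _ fun Q _ =>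
            Finset.measurable_sum _ fun p _ => hi c Q p]
          refine Finset.sum_congr rfl fun c _ => ?_
          rw [lintegral_finsetSum _ fun Q _ => Finset.measurable_sum _ fun p _ => hi c Q p]
          refine Finset.sum_congr rfl fun Q _ => ?_
          rw [lintegral_finsetSum _ fun p _ => hi c Q p]
          refine Finset.sum_congr rfl fun p _ => ?_
          exact lintegral_indicator_one (hM n m k c.1 (sg c.2) Q p)
      _ ≤ ∑ c : Fin (m + 1) × Bool, ∑ Q ∈ (Finset.univ : Finset (Fin n)).powersetCard m,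
          ENNReal.ofReal D ^ m * ENNReal.ofReal (m.factorial * 2 ^ m) * 2 ^ m := by
          refine Finset.sum_le_sum fun c _ => Finset.sum_le_sum fun Q hQ => ?_
          refine sum_prob_le hM hV hP hL hR hDi k D ν hD hν c.1 (sg c.2) ?_ Q
            (Finset.mem_powersetCard_univ.1 hQ)
          unfold sg
          split_ifs <;> norm_num
      _ ≤ _ := by
          rw [Finset.sum_const, Finset.sum_const, Finset.card_powersetCard, Finset.card_univ,
            Finset.card_univ, Fintype.card_prod, Fintype.card_bool, Fintype.card_fin,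
            Fintype.card_fin, nsmul_eq_mul, nsmul_eq_mul]
          have e1 : ENNReal.ofReal D ^ m * ENNReal.ofReal (m.factorial * 2 ^ m) * 2 ^ m =
              ENNReal.ofReal (D ^ m * (m.factorial * 2 ^ m) * 2 ^ m) := by
            rw [ENNReal.ofReal_mul (show 0 ≤ D ^ m * ((m.factorial : ℝ) * 2 ^ m) by positivity),
              ENNReal.ofReal_mul (show 0 ≤ D ^ m by positivity),
              ENNReal.ofReal_pow hD.le, ENNReal.ofReal_pow (show (0 : ℝ) ≤ 2 by norm_num),
              ENNReal.ofReal_ofNat]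
          rw [e1, ← ENNReal.ofReal_natCast, ← ENNReal.ofReal_natCast (n.choose m),
            ← ENNReal.ofReal_natCast (m + 1), ← ENNReal.ofReal_mul (by positivity),
            ← ENNReal.ofReal_mul (by positivity), ← ENNReal.ofReal_mul (by positivity)]
          apply ENNReal.ofReal_le_ofReal
          have e2 : ((n.choose m : ℕ) : ℝ) * (m.factorial : ℝ) ≤ (n : ℝ) ^ m := by
            have := Nat.descFactorial_le_pow n m
            rw [Nat.descFactorial_eq_factorial_mul_choose] at this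
            rw [mul_comm]
            exact_mod_cast this
          push_cast
          calc ((m : ℝ) + 1) * 2 * ((n.choose m : ℕ) * (D ^ m * ((m.factorial : ℝ) * 2 ^ m) * 2 ^ m))
              = ((m : ℝ) + 1) * (2 * ((4 * D) ^ m * ((n.choose m : ℕ) * (m.factorial : ℝ)))) := by
                rw [mul_pow, show (4 : ℝ) = 2 * 2 by norm_num, mul_pow]
                ring
            _ ≤ ((m : ℝ) + 1) * (2 * ((4 * D) ^ m * (n : ℝ) ^ m)) := by
                gcongr
            _ = ((m : ℝ) + 1) * (2 * (4 * D * n) ^ m) := by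
                rw [mul_pow (4 * D) (n : ℝ)]
  exact (ENNReal.mul_le_mul_iff_right (by simp) (ENNReal.natCast_ne_top _)).1 h1

end Pool.Agent.N378.KH
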