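import Pool.Agent.N378.KH.Stm

/-!
# Smoothed number of k-hyperplanes and k-sets in all dimensions: second part
Points with arbitrary bounded joint densities; general position; k-sets.
-/

set_option autoImplicit false

open MeasureTheory Finset
open scoped ENNReal

namespace Pool.Agent.N378.KH

variable {n m : ℕ}

/-- the points as a function of two indices -/
def fl (x : Fin n → Fin (m + 1) → ℝ) : Fin n × Fin (m + 1) → ℝ := fun e => x e.1 e.2

/-- the laws of the points: supported on the cube `[-1, 1]^(m+1)`, with density at most `D` -/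
def Law2 (D : ℝ) (μ : Fin n → Measure (Fin (m + 1) → ℝ)) : Prop :=
  (∀ i, IsProbabilityMeasure (μ i)) ∧
    ∀ i, μ i ≤ ENNReal.ofReal D • volume.restrict (Set.Icc (-1 : Fin (m + 1) → ℝ) 1)

/-- general position: no `m + 2` of the points are on a hyperplane -/
def GenPos (x : Fin n → Fin (m + 1) → ℝ) : Prop :=
  ∀ T : Finset (Fin n), T.card = m + 2 → ¬ ∃ (u : Fin (m + 1) → ℝ) (c : ℝ), u ≠ 0 ∧
    ∀ i ∈ T, ∑ j, u j * x i j = c

/-- `S` is the set of the points in an open half-space -/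
def Sep (x : Fin n → Fin (m + 1) → ℝ) (S : Finset (Fin n)) : Prop :=
  ∃ (u : Fin (m + 1) → ℝ) (c : ℝ), S = Finset.univ.filter fun i => ∑ j, u j * x i j < c

/-- KH/CUR: transfer from the joint laws to the volume in all coordinates -/
def S_CUR : Prop := ∀ (n m : ℕ) (D : ℝ) (μ : Fin n → Measure (Fin (m + 1) → ℝ)), 0 < D →
  Law2 D μ → ∀ (Q : Finset (Fin n)) (f : (Fin n × Fin (m + 1) → ℝ) → ℝ≥0∞), Measurable f →
    ∀ x : Fin n → Fin (m + 1) → ℝ, (∫⋯∫⁻_Q, (fun x => f (fl x)) ∂μ) x ≤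
      ENNReal.ofReal D ^ Q.card * (∫⋯∫⁻_(Q ×ˢ Finset.univ), f ∂fun _ => volume) (fl x)

/-- KH/VOL -/
def S_VOL : Prop := ∀ (n m k : ℕ) (j : Fin (m + 1)) (s : ℝ) (Q : Finset (Fin n)) (p : Fin n),
  Q.card = m → p ∉ Q → ∀ x : Fin n × Fin (m + 1) → ℝ,
    (∫⋯∫⁻_(Q ×ˢ Finset.univ), (Ev j s k Q p).indicator (fun _ => 1) ∂fun _ => volume) x ≤
      2 ^ (m * m) * (ENNReal.ofReal (m.factorial * 2 ^ m) * volume (slopes j s k Q p x))

/-- KH/DIS2 -/
def S_DIS2 : Prop := ∀ (n m : ℕ) (D : ℝ) (μ : Fin n → Measure (Fin (m + 1) → ℝ)), 0 < D →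
  Law2 D μ → ∀ᵐ x ∂Measure.pi μ, (∀ i j, |x i j| ≤ 1) ∧ ∀ i i' : Fin n, i ≠ i' → ∃ e, x i e ≠ x i' e

/-- KH/GP: almost surely general position -/
def S_GP : Prop := ∀ (n m : ℕ) (D : ℝ) (μ : Fin n → Measure (Fin (m + 1) → ℝ)), 0 < D →
  Law2 D μ → ∀ᵐ x ∂Measure.pi μ, GenPos x

/-- KH/CMAP: currying of product measures -/
def S_CMAP : Prop := ∀ (n m : ℕ) (ν : Fin n → Fin (m + 1) → Measure ℝ),
  (∀ i j, IsProbabilityMeasure (ν i j)) →
    MeasurePreserving (fun x : Fin n → Fin (m + 1) → ℝ => fl x)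
      (Measure.pi fun i => Measure.pi (ν i)) (Measure.pi fun e : Fin n × Fin (m + 1) => ν e.1 e.2)

/-- KH/LAW: independent coordinates with density at most `D` have a joint density at most
`D ^ (m + 1)` -/
def S_LAW : Prop := ∀ (n m : ℕ) (D : ℝ) (ν : Fin n → Fin (m + 1) → Measure ℝ), 0 < D →
  Law D (fun e : Fin n × Fin (m + 1) => ν e.1 e.2) → Law2 (D ^ (m + 1)) fun i => Measure.pi (ν i)

/-- KH/KS: a set which is cut off by a half-space is, up to points on the boundary, cut off by a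
half-space with `m + 1` points on its boundary -/
def S_KS : Prop := ∀ (n m : ℕ) (x : Fin n → Fin (m + 1) → ℝ), m + 1 ≤ n → GenPos x →
  ∀ S : Finset (Fin n), S.Nonempty → S ≠ Finset.univ → Sep x S →
    ∃ (T : Finset (Fin n)) (u : Fin (m + 1) → ℝ) (c : ℝ), T.card = m + 1 ∧ u ≠ 0 ∧
      (∀ i ∈ T, ∑ j, u j * x i j = c) ∧ (∀ i ∈ S, i ∉ T → ∑ j, u j * x i j < c) ∧
        ∀ i ∉ S, i ∉ T → c < ∑ j, u j * x i j

/-- KH/UNI: in general position the hyperplane through `m + 1` points is unique -/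
def S_UNI : Prop := ∀ (n m : ℕ) (x : Fin n → Fin (m + 1) → ℝ), m + 2 ≤ n → GenPos x →
  ∀ (T : Finset (Fin n)) (u v : Fin (m + 1) → ℝ) (c d : ℝ), T.card = m + 1 → u ≠ 0 → v ≠ 0 →
    (∀ i ∈ T, ∑ j, u j * x i j = c) → (∀ i ∈ T, ∑ j, v j * x i j = d) →
      ∃ t : ℝ, t ≠ 0 ∧ v = t • u ∧ d = t * c

end Pool.Agent.N378.KH
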