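import Pool.Agent.N378.KH.Main
import Pool.Agent.N378.KH.Stm2

/-!
# Smoothed number of k-hyperplanes in all dimensions: assembly of the second part
-/

set_option autoImplicit false

open MeasureTheory Finset
open scoped ENNReal

namespace Pool.Agent.N378.KH

variable {n m : ℕ}

lemma measurable_fl : Measurable fun x : Fin n → Fin (m + 1) → ℝ => fl x := by
  refine measurable_pi_iff.2 fun e => ?_
  exact (measurable_pi_apply e.2).comp (measurable_pi_apply e.1)

/-- the general form of the assembly -/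
theorem gen (hC : S_COV) (hM : S_MEAS) (hV : S_MV) (hR : S_RANK) {Ω : Type} [MeasurableSpace Ω]
    (P : Measure Ω) [IsProbabilityMeasure P] (X : Ω → Fin n × Fin (m + 1) → ℝ)
    (hX : Measurable X) (k : ℕ) (C : ℝ) (hC0 : 0 ≤ C)
    (h1 : ∀ (j : Fin (m + 1)) (s : ℝ) (Q : Finset (Fin n)) (p : Fin n), Q.card = m → p ∉ Q →
      P {ω | X ω ∈ Ev j s k Q p} ≤
        ENNReal.ofReal C * ∫⁻ ω, volume (slopes j s k Q p (X ω)) ∂P)
    (h2 : ∀ᵐ ω ∂P, (∀ e, |X ω e| ≤ 1) ∧
      ∀ i i' : Fin n, i ≠ i' → ∃ e, X ω (i, e) ≠ X ω (i', e)) :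
    ∃ G : Ω → ℝ≥0∞, Measurable G ∧
      (∀ᵐ ω ∂P, (Nat.card {T : Finset (Fin n) // IsKH (X ω) k T} : ℝ≥0∞) ≤ G ω) ∧
      ∫⁻ ω, G ω ∂P ≤ ENNReal.ofReal (2 * (n.choose m * (C * 2 ^ m))) := by
  classical
  have hi : ∀ (c : Fin (m + 1) × Bool) (Q : Finset (Fin n)) (p : Fin n),
      Measurable fun ω => (Ev c.1 (sg c.2) k Q p).indicator (fun _ => (1 : ℝ≥0∞)) (X ω) :=
    fun c Q p => (measurable_const.indicator (hM n m k c.1 (sg c.2) Q p)).comp hX
  have hGm : Measurable fun ω => ∑ c : Fin (m + 1) × Bool,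
      ∑ Q ∈ (Finset.univ : Finset (Fin n)).powersetCard m,
        ∑ p ∈ Qᶜ, (Ev c.1 (sg c.2) k Q p).indicator (fun _ => (1 : ℝ≥0∞)) (X ω) :=
    Finset.measurable_sum _ fun c _ => Finset.measurable_sum _ fun Q _ =>
            Finset.measurable_sum _ fun p _ => hi c Q p
  have hne : ((m + 1 : ℕ) : ℝ≥0∞) ≠ 0 := by simp
  have hnt : ((m + 1 : ℕ) : ℝ≥0∞) ≠ ⊤ := ENNReal.natCast_ne_top _
  refine ⟨fun ω => ((m + 1 : ℕ) : ℝ≥0∞)⁻¹ * ∑ c : Fin (m + 1) × Bool,
      ∑ Q ∈ (Finset.univ : Finset (Fin n)).powersetCard m,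
        ∑ p ∈ Qᶜ, (Ev c.1 (sg c.2) k Q p).indicator (fun _ => (1 : ℝ≥0∞)) (X ω),
    hGm.const_mul _, ?_, ?_⟩
  · filter_upwards [h2] with ω hω
    have h4 := card_le hC k (X ω) hω.1
    rw [mul_comm] at h4
    calc (Nat.card {T : Finset (Fin n) // IsKH (X ω) k T} : ℝ≥0∞)
        = ((m + 1 : ℕ) : ℝ≥0∞)⁻¹ * ((Nat.card {T : Finset (Fin n) // IsKH (X ω) k T} : ℝ≥0∞) *
          ((m + 1 : ℕ) : ℝ≥0∞)) := by
          rw [mul_comm, mul_assoc, ENNReal.mul_inv_cancel hne hnt, mul_one]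
      _ ≤ _ := mul_le_mul' le_rfl h4
  have hsum : ∀ (j : Fin (m + 1)) (s : ℝ), s ≠ 0 → ∀ Q : Finset (Fin n), Q.card = m →
      ∑ p ∈ Qᶜ, P {ω | X ω ∈ Ev j s k Q p} ≤ ENNReal.ofReal C * 2 ^ m := by
    intro j s hs Q hQ
    have hmV : ∀ p, Measurable fun ω => volume (slopes j s k Q p (X ω)) :=
      fun p => ((hV n m k j s Q p).2).comp hX
    calc ∑ p ∈ Qᶜ, P {ω | X ω ∈ Ev j s k Q p}
        ≤ ∑ p ∈ Qᶜ, ENNReal.ofReal C * ∫⁻ ω, volume (slopes j s k Q p (X ω)) ∂P :=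
          Finset.sum_le_sum fun p hp => h1 j s Q p hQ (Finset.mem_compl.1 hp)
      _ = ENNReal.ofReal C * ∫⁻ ω, ∑ p ∈ Qᶜ, volume (slopes j s k Q p (X ω)) ∂P := by
          rw [lintegral_finsetSum _ fun p _ => hmV p, Finset.mul_sum]
      _ ≤ ENNReal.ofReal C * ∫⁻ _, 2 ^ m ∂P := by
          refine mul_le_mul' le_rfl (lintegral_mono_ae ?_)
          filter_upwards [h2] with ω hω
          exact hR n m k j s Q hs (X ω) hω.2
      _ = _ := by
          rw [lintegral_const, measure_univ, mul_one]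
  have hm0 : ∫⁻ ω, ∑ c : Fin (m + 1) × Bool, ∑ Q ∈ (Finset.univ : Finset (Fin n)).powersetCard m,
          ∑ p ∈ Qᶜ, (Ev c.1 (sg c.2) k Q p).indicator (fun _ => (1 : ℝ≥0∞)) (X ω) ∂P ≤
      ((m + 1 : ℕ) : ℝ≥0∞) * ENNReal.ofReal (2 * (n.choose m * (C * 2 ^ m))) := by
    calc ∫⁻ ω, ∑ c : Fin (m + 1) × Bool, ∑ Q ∈ (Finset.univ : Finset (Fin n)).powersetCard m,
          ∑ p ∈ Qᶜ, (Ev c.1 (sg c.2) k Q p).indicator (fun _ => (1 : ℝ≥0∞)) (X ω) ∂P
        = ∑ c : Fin (m + 1) × Bool, ∑ Q ∈ (Finset.univ : Finset (Fin n)).powersetCard m,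
          ∑ p ∈ Qᶜ, P {ω | X ω ∈ Ev c.1 (sg c.2) k Q p} := by
          rw [lintegral_finsetSum _ fun c _ => Finset.measurable_sum _ fun Q _ =>
            Finset.measurable_sum _ fun p _ => hi c Q p]
          refine Finset.sum_congr rfl fun c _ => ?_
          rw [lintegral_finsetSum _ fun Q _ => Finset.measurable_sum _ fun p _ => hi c Q p]
          refine Finset.sum_congr rfl fun Q _ => ?_
          rw [lintegral_finsetSum _ fun p _ => hi c Q p]
          refine Finset.sum_congr rfl fun p _ => ?_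
          have hms : MeasurableSet {ω | X ω ∈ Ev c.1 (sg c.2) k Q p} :=
            hX (hM n m k c.1 (sg c.2) Q p)
          have h3 : ∀ ω, (Ev c.1 (sg c.2) k Q p).indicator (fun _ => (1 : ℝ≥0∞)) (X ω) =
              ({ω | X ω ∈ Ev c.1 (sg c.2) k Q p}).indicator (fun _ => (1 : ℝ≥0∞)) ω := by
            intro ω
            by_cases h : X ω ∈ Ev c.1 (sg c.2) k Q p
            · rw [Set.indicator_of_mem h, Set.indicator_of_mem]
              exact h
            · rw [Set.indicator_of_notMem h, Set.indicator_of_notMem]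
              exact h
          rw [lintegral_congr h3, lintegral_indicator_const hms, one_mul]
      _ ≤ ∑ c : Fin (m + 1) × Bool, ∑ Q ∈ (Finset.univ : Finset (Fin n)).powersetCard m,
          ENNReal.ofReal C * 2 ^ m := by
          refine Finset.sum_le_sum fun c _ => Finset.sum_le_sum fun Q hQ => ?_
          refine hsum c.1 (sg c.2) ?_ Q (Finset.mem_powersetCard_univ.1 hQ)
          unfold sg
          split_ifs <;> norm_num
      _ = _ := by
          rw [Finset.sum_const, Finset.sum_const, Finset.card_powersetCard, Finset.card_univ,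
            Finset.card_univ, Fintype.card_prod, Fintype.card_bool, Fintype.card_fin,
            Fintype.card_fin, nsmul_eq_mul, nsmul_eq_mul]
          have e1 : ENNReal.ofReal C * 2 ^ m = ENNReal.ofReal (C * 2 ^ m) := by
            rw [ENNReal.ofReal_mul hC0, ENNReal.ofReal_pow (show (0 : ℝ) ≤ 2 by norm_num),
              ENNReal.ofReal_ofNat]
          rw [e1, ← ENNReal.ofReal_natCast ((m + 1) * 2), ← ENNReal.ofReal_natCast (n.choose m),
            ← ENNReal.ofReal_natCast (m + 1), ← ENNReal.ofReal_mul (by positivity),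
            ← ENNReal.ofReal_mul (by positivity), ← ENNReal.ofReal_mul (by positivity)]
          congr 1
          push_cast
          ring
  rw [lintegral_const_mul _ hGm]
  calc ((m + 1 : ℕ) : ℝ≥0∞)⁻¹ * _ ≤ ((m + 1 : ℕ) : ℝ≥0∞)⁻¹ * (((m + 1 : ℕ) : ℝ≥0∞) *
        ENNReal.ofReal (2 * (n.choose m * (C * 2 ^ m)))) := mul_le_mul' le_rfl hm0
    _ = _ := by
        rw [← mul_assoc, ENNReal.inv_mul_cancel hne hnt, one_mul]

lemma fl_ht_update (j : Fin (m + 1)) (a : Fin m → ℝ) (Q : Finset (Fin n))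
    (x : Fin n → Fin (m + 1) → ℝ) (y : Q → Fin (m + 1) → ℝ) {i : Fin n} (hi : i ∉ Q) :
    ht j a (fl (Function.updateFinset x Q y)) i = ht j a (fl x) i := by
  have h : ∀ l, Function.updateFinset x Q y i l = x i l := by
    intro l
    rw [Function.updateFinset, dif_neg hi]
  simp only [ht, fl, h]

lemma fl_slopes_update (j : Fin (m + 1)) (s : ℝ) (k : ℕ) (Q : Finset (Fin n))
    (x : Fin n → Fin (m + 1) → ℝ) (y : Q → Fin (m + 1) → ℝ) {p : Fin n} (hp : p ∉ Q) :
    slopes j s k Q p (fl (Function.updateFinset x Q y)) = slopes j s k Q p (fl x) := by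
  ext a
  have h : below j s a (fl (Function.updateFinset x Q y)) Q p = below j s a (fl x) Q p := by
    ext i
    simp only [below, Finset.mem_filter, Finset.mem_univ, true_and]
    constructor
    · rintro ⟨h1, h2⟩
      rw [fl_ht_update j a Q x y h1, fl_ht_update j a Q x y hp] at h2
      exact ⟨h1, h2⟩
    · rintro ⟨h1, h2⟩
      rw [fl_ht_update j a Q x y h1, fl_ht_update j a Q x y hp]
      exact ⟨h1, h2⟩
  constructor
  · rintro ⟨h1, h2⟩
    exact ⟨h1, by rw [← h]; exact h2⟩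
  · rintro ⟨h1, h2⟩
    exact ⟨h1, by rw [h]; exact h2⟩

/-- the probability of the event for joint laws -/
lemma prob_le2 (hM : S_MEAS) (hV : S_MV) (hCu : S_CUR) (hVo : S_VOL) (k : ℕ) (D : ℝ)
    (μ : Fin n → Measure (Fin (m + 1) → ℝ)) (hD : 0 < D) (hμ : Law2 D μ) (j : Fin (m + 1)) (s : ℝ)
    (Q : Finset (Fin n)) (hQ : Q.card = m) (p : Fin n) (hp : p ∉ Q) :
    Measure.pi μ {x | fl x ∈ Ev j s k Q p} ≤
      ENNReal.ofReal (D ^ m * (2 ^ (m * m) * (m.factorial * 2 ^ m))) *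
      ∫⁻ x, volume (slopes j s k Q p (fl x)) ∂Measure.pi μ := by
  have := hμ.1
  have hmE : MeasurableSet (Ev (n := n) (m := m) j s k Q p) := hM n m k j s Q p
  have hmE' : MeasurableSet {x : Fin n → Fin (m + 1) → ℝ | fl x ∈ Ev j s k Q p} :=
    measurable_fl hmE
  have hmV : Measurable fun x : Fin n → Fin (m + 1) → ℝ => volume (slopes j s k Q p (fl x)) :=
    ((hV n m k j s Q p).2).comp measurable_fl
  set f : (Fin n × Fin (m + 1) → ℝ) → ℝ≥0∞ := (Ev j s k Q p).indicator (fun _ => 1) with hf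
  have hmf : Measurable f := measurable_const.indicator hmE
  have h0 : Measure.pi μ {x | fl x ∈ Ev j s k Q p} = ∫⁻ x, f (fl x) ∂Measure.pi μ := by
    have h3 : ∀ x : Fin n → Fin (m + 1) → ℝ, f (fl x) =
        ({x : Fin n → Fin (m + 1) → ℝ | fl x ∈ Ev j s k Q p}).indicator
          (fun _ => (1 : ℝ≥0∞)) x := by
      intro x
      by_cases h : fl x ∈ Ev j s k Q p
      · rw [hf, Set.indicator_of_mem h, Set.indicator_of_mem]
        exact h
      · rw [hf, Set.indicator_of_notMem h, Set.indicator_of_notMem]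
        exact h
    rw [lintegral_congr h3, lintegral_indicator_const hmE', one_mul]
  rw [h0, ← lintegral_const_mul _ hmV]
  refine lintegral_le_of_lmarginal_le Q (hmf.comp measurable_fl) (hmV.const_mul _) ?_
  intro x
  have h2 : (∫⋯∫⁻_Q, (fun x : Fin n → Fin (m + 1) → ℝ =>
      ENNReal.ofReal (D ^ m * (2 ^ (m * m) * (m.factorial * 2 ^ m))) *
        volume (slopes j s k Q p (fl x))) ∂μ) x =
      ENNReal.ofReal (D ^ m * (2 ^ (m * m) * (m.factorial * 2 ^ m))) *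
        volume (slopes j s k Q p (fl x)) := by
    rw [lmarginal]
    simp only [fl_slopes_update j s k Q x _ hp]
    rw [lintegral_const, measure_univ, mul_one]
  rw [h2]
  refine le_trans (hCu n m D μ hD hμ Q f hmf x) ?_
  refine le_trans (mul_le_mul' le_rfl (hVo n m k j s Q p hQ hp (fl x))) ?_
  rw [hQ]
  refine le_of_eq ?_
  rw [ENNReal.ofReal_mul (show 0 ≤ D ^ m by positivity),
    ENNReal.ofReal_mul (show (0 : ℝ) ≤ 2 ^ (m * m) by positivity),
    ENNReal.ofReal_pow hD.le, ENNReal.ofReal_pow (show (0 : ℝ) ≤ 2 by norm_num),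
    ENNReal.ofReal_ofNat]
  ring

lemma choose_mul_le (n m : ℕ) : ((n.choose m : ℕ) : ℝ) * (m.factorial : ℝ) ≤ (n : ℝ) ^ m := by
  have := Nat.descFactorial_le_pow n m
  rw [Nat.descFactorial_eq_factorial_mul_choose] at this
  rw [mul_comm]
  exact_mod_cast this

/-- arbitrary joint laws of bounded density -/
theorem main2 (hC : S_COV) (hM : S_MEAS) (hV : S_MV) (hR : S_RANK) (hCu : S_CUR) (hVo : S_VOL)
    (hDi : S_DIS2) (k : ℕ) (D : ℝ) (μ : Fin n → Measure (Fin (m + 1) → ℝ)) (hD : 0 < D)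
    (hμ : Law2 D μ) :
    ∃ G : (Fin n → Fin (m + 1) → ℝ) → ℝ≥0∞, Measurable G ∧
      (∀ᵐ x ∂Measure.pi μ, (Nat.card {T : Finset (Fin n) // IsKH (fl x) k T} : ℝ≥0∞) ≤ G x) ∧
      ∫⁻ x, G x ∂Measure.pi μ ≤ ENNReal.ofReal (2 * (2 ^ (m + 2) * D * n) ^ m) := by
  have := hμ.1
  obtain ⟨G, hG1, hG2, hG3⟩ := gen hC hM hV hR (Measure.pi μ) (fun x => fl x) measurable_fl k
    (D ^ m * (2 ^ (m * m) * (m.factorial * 2 ^ m))) (by positivity)
    (fun j s Q p hQ hp => prob_le2 hM hV hCu hVo k D μ hD hμ j s Q hQ p hp) (by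
      filter_upwards [hDi n m D μ hD hμ] with x hx
      exact ⟨fun e => hx.1 e.1 e.2, hx.2⟩)
  refine ⟨G, hG1, hG2, le_trans hG3 ?_⟩
  · apply ENNReal.ofReal_le_ofReal
    calc 2 * ((n.choose m : ℕ) * (D ^ m * (2 ^ (m * m) * ((m.factorial : ℝ) * 2 ^ m)) * 2 ^ m))
        = 2 * ((2 ^ (m + 2) * D) ^ m * ((n.choose m : ℕ) * (m.factorial : ℝ))) := by
          rw [mul_pow, ← pow_mul, show (m + 2) * m = m * m + (m + m) by ring, pow_add, pow_add]
          ring
      _ ≤ 2 * ((2 ^ (m + 2) * D) ^ m * (n : ℝ) ^ m) := by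
          gcongr
          exact choose_mul_le n m
      _ = 2 * (2 ^ (m + 2) * D * n) ^ m := by
          rw [mul_pow (2 ^ (m + 2) * D) (n : ℝ)]

/-- independent coordinates -/
theorem main1 (hC : S_COV) (hM : S_MEAS) (hV : S_MV) (hP : S_PIM) (hL : S_LIN) (hR : S_RANK)
    (hDi : S_DIST) (hCm : S_CMAP) (k : ℕ) (D : ℝ) (ν : Fin n → Fin (m + 1) → Measure ℝ)
    (hD : 0 < D) (hν : Law D (fun e : Fin n × Fin (m + 1) => ν e.1 e.2)) :
    ∃ G : (Fin n → Fin (m + 1) → ℝ) → ℝ≥0∞, Measurable G ∧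
      (∀ᵐ x ∂(Measure.pi fun i => Measure.pi (ν i)),
        (Nat.card {T : Finset (Fin n) // IsKH (fl x) k T} : ℝ≥0∞) ≤ G x) ∧
      ∫⁻ x, G x ∂(Measure.pi fun i => Measure.pi (ν i)) ≤
        ENNReal.ofReal (2 * (4 * D * n) ^ m) := by
  have hp' : ∀ i j, IsProbabilityMeasure (ν i j) := fun i j => hν.1 (i, j)
  have := hν.1
  have hcm := hCm n m ν hp'
  suffices h : ∃ G : (Fin n → Fin (m + 1) → ℝ) → ℝ≥0∞, Measurable G ∧
      (∀ᵐ x ∂(Measure.pi fun i => Measure.pi (ν i)),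
        (Nat.card {T : Finset (Fin n) // IsKH (fl x) k T} : ℝ≥0∞) ≤ G x) ∧
      ∫⁻ x, G x ∂(Measure.pi fun i => Measure.pi (ν i)) ≤
        ENNReal.ofReal (2 * (n.choose m * (D ^ m * (m.factorial * 2 ^ m) * 2 ^ m))) by
    obtain ⟨G, hG1, hG2, hG3⟩ := h
    refine ⟨G, hG1, hG2, le_trans hG3 ?_⟩
    apply ENNReal.ofReal_le_ofReal
    calc 2 * ((n.choose m : ℕ) * (D ^ m * ((m.factorial : ℝ) * 2 ^ m) * 2 ^ m))
        = 2 * ((4 * D) ^ m * ((n.choose m : ℕ) * (m.factorial : ℝ))) := by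
          rw [mul_pow, show (4 : ℝ) = 2 * 2 by norm_num, mul_pow]
          ring
      _ ≤ 2 * ((4 * D) ^ m * (n : ℝ) ^ m) := by
          gcongr
          exact choose_mul_le n m
      _ = 2 * (4 * D * n) ^ m := by
          rw [mul_pow (4 * D) (n : ℝ)]
  refine gen hC hM hV hR (Measure.pi fun i => Measure.pi (ν i)) (fun x => fl x)
    measurable_fl k (D ^ m * (m.factorial * 2 ^ m)) (by positivity) ?_ ?_
  · intro j s Q p hQ hp
    have h1 := prob_le hM hV hP hL k D (fun e : Fin n × Fin (m + 1) => ν e.1 e.2) hD hν j s Q hQ p hp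
    have hmE : MeasurableSet (Ev (n := n) (m := m) j s k Q p) := hM n m k j s Q p
    have h2 : (Measure.pi fun i => Measure.pi (ν i)) {x | fl x ∈ Ev j s k Q p} =
        (Measure.pi fun e : Fin n × Fin (m + 1) => ν e.1 e.2) (Ev j s k Q p) :=
      hcm.measure_preimage hmE.nullMeasurableSet
    have h3 : ∫⁻ x, volume (slopes j s k Q p (fl x)) ∂(Measure.pi fun i => Measure.pi (ν i)) =
        ∫⁻ z, volume (slopes j s k Q p z) ∂(Measure.pi fun e : Fin n × Fin (m + 1) => ν e.1 e.2) :=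
      hcm.lintegral_comp (hV n m k j s Q p).2
    rw [h2, h3, ENNReal.ofReal_mul (show 0 ≤ D ^ m by positivity), ENNReal.ofReal_pow hD.le]
    exact h1
  · exact hcm.quasiMeasurePreserving.ae (hDi n m D (fun e : Fin n × Fin (m + 1) => ν e.1 e.2) hD hν)

end Pool.Agent.N378.KH
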