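import Pool.Agent.N378.KH.Stm2

/-!
# The numbers of k-hyperplanes and of k-sets are measurable functions of the points
-/

set_option autoImplicit false

open MeasureTheory Finset
open scoped ENNReal

namespace Pool.Agent.N378.KH

variable {n m : ℕ}

/-- strict and weak inequalities between the values of a linear form at the points -/
def Ineq (B C : Finset (Fin n × Fin n)) (x : Fin n → Fin (m + 1) → ℝ) : Prop :=
  ∃ u : Fin (m + 1) → ℝ, u ≠ 0 ∧ (∀ p ∈ B, ∑ j, u j * x p.1 j < ∑ j, u j * x p.2 j) ∧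
    ∀ p ∈ C, ∑ j, u j * x p.1 j ≤ ∑ j, u j * x p.2 j

lemma measurableSet_ineq (B C : Finset (Fin n × Fin n)) :
    MeasurableSet {x : Fin n → Fin (m + 1) → ℝ | Ineq B C x} := by
  let K := Metric.sphere (0 : Fin (m + 1) → ℝ) 1
  let F : (Fin n → Fin (m + 1) → ℝ) × K → Fin n → ℝ := fun z i => ∑ j, (z.2 : Fin (m + 1) → ℝ) j * z.1 i j
  have hF : ∀ i, Continuous fun z => F z i := by
    intro i
    refine continuous_finsetSum _ fun j _ => Continuous.mul ?_ (by fun_prop)
    exact (continuous_apply j).comp (continuous_subtype_val.comp continuous_snd)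
  let E : ℕ → Set ((Fin n → Fin (m + 1) → ℝ) × K) := fun r =>
    (⋂ p ∈ B, {z | F z p.1 + 1 / ((r : ℝ) + 1) ≤ F z p.2}) ∩ ⋂ p ∈ C, {z | F z p.1 ≤ F z p.2}
  have hE : ∀ r, IsClosed (E r) := by
    intro r
    refine IsClosed.inter ?_ ?_
    · exact isClosed_biInter fun p _ => isClosed_le ((hF p.1).add continuous_const) (hF p.2)
    · exact isClosed_biInter fun p _ => isClosed_le (hF p.1) (hF p.2)
  have h : {x : Fin n → Fin (m + 1) → ℝ | Ineq B C x} = ⋃ r : ℕ, Prod.fst '' E r := by
    ext x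
    constructor
    · rintro ⟨u, hu, h1, h2⟩
      have hpos : 0 < ‖u‖ := norm_pos_iff.2 hu
      set v : Fin (m + 1) → ℝ := ‖u‖⁻¹ • u with hv
      have hvn : v ∈ Metric.sphere (0 : Fin (m + 1) → ℝ) 1 := by
        rw [mem_sphere_zero_iff_norm, hv, norm_smul, norm_inv, norm_norm,
          inv_mul_cancel₀ hpos.ne']
      have hvs : ∀ i, ∑ j, v j * x i j = ‖u‖⁻¹ * ∑ j, u j * x i j := by
        intro i
        rw [Finset.mul_sum]
        refine Finset.sum_congr rfl fun j _ => ?_
        rw [hv, Pi.smul_apply, smul_eq_mul, mul_assoc]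
      have h1' : ∀ p ∈ B, ∑ j, v j * x p.1 j < ∑ j, v j * x p.2 j := by
        intro p hp
        rw [hvs, hvs]
        exact mul_lt_mul_of_pos_left (h1 p hp) (inv_pos.2 hpos)
      have h2' : ∀ p ∈ C, ∑ j, v j * x p.1 j ≤ ∑ j, v j * x p.2 j := by
        intro p hp
        rw [hvs, hvs]
        exact mul_le_mul_of_nonneg_left (h2 p hp) (inv_pos.2 hpos).le
      have hr : ∀ p ∈ B, ∃ r : ℕ,
          1 / ((r : ℝ) + 1) < ∑ j, v j * x p.2 j - ∑ j, v j * x p.1 j :=
        fun p hp => exists_nat_one_div_lt (sub_pos.2 (h1' p hp))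
      choose! r hr using hr
      refine Set.mem_iUnion.2 ⟨B.sup r, ⟨(x, ⟨v, hvn⟩), ⟨?_, ?_⟩, rfl⟩⟩
      · refine Set.mem_iInter₂.2 fun p hp => ?_
        have h3 : r p ≤ B.sup r := Finset.le_sup hp
        have h4 : 1 / (((B.sup r : ℕ) : ℝ) + 1) ≤ 1 / ((r p : ℝ) + 1) := by
          apply one_div_le_one_div_of_le
          · positivity
          · have : (r p : ℝ) ≤ ((B.sup r : ℕ) : ℝ) := by exact_mod_cast h3
            linarith
        have h5 := hr p hp
        change ∑ j, v j * x p.1 j + 1 / (((B.sup r : ℕ) : ℝ) + 1) ≤ ∑ j, v j * x p.2 j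
        linarith
      · exact Set.mem_iInter₂.2 fun p hp => h2' p hp
    · intro hx
      obtain ⟨r, ⟨⟨x', v, hv⟩, ⟨h1, h2⟩, rfl⟩⟩ := Set.mem_iUnion.1 hx
      refine ⟨v, ?_, fun p hp => ?_, fun p hp => ?_⟩
      · rintro rfl
        rw [mem_sphere_zero_iff_norm, norm_zero] at hv
        exact zero_ne_one hv
      · have h3 := Set.mem_iInter₂.1 h1 p hp
        change ∑ j, v j * x' p.1 j + 1 / ((r : ℝ) + 1) ≤ ∑ j, v j * x' p.2 j at h3
        have h6 : 0 < 1 / ((r : ℝ) + 1) := by positivity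
        change ∑ j, v j * x' p.1 j < ∑ j, v j * x' p.2 j
        linarith
      · exact Set.mem_iInter₂.1 h2 p hp
  rw [h]
  exact MeasurableSet.iUnion fun r => (isClosedMap_fst_of_compactSpace _ (hE r)).measurableSet

lemma isKH_iff (x : Fin n → Fin (m + 1) → ℝ) (k : ℕ) (T : Finset (Fin n)) (hT : T.card = m + 1)
    (i₀ : Fin n) (hi₀ : i₀ ∈ T) :
    IsKH (fl x) k T ↔ ∃ A ∈ (Finset.univ : Finset (Fin n)).powersetCard k,
      Ineq (A ×ˢ {i₀}) (({i₀} ×ˢ (Aᶜ ∪ T)) ∪ (T ×ˢ {i₀})) x := by
  classical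
  constructor
  · rintro ⟨-, u, c, hu, h1, h2⟩
    have hc : ∑ j, u j * x i₀ j = c := h1 i₀ hi₀
    refine ⟨Finset.univ.filter fun i => ∑ j, u j * x i j < c,
      Finset.mem_powersetCard_univ.2 h2, u, hu, ?_, ?_⟩
    · intro p hp
      obtain ⟨hp1, hp2⟩ := Finset.mem_product.1 hp
      rw [Finset.mem_singleton.1 hp2, hc]
      exact (Finset.mem_filter.1 hp1).2
    · intro p hp
      rcases Finset.mem_union.1 hp with hp | hp
      · obtain ⟨hp1, hp2⟩ := Finset.mem_product.1 hp
        rw [Finset.mem_singleton.1 hp1, hc]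
        rcases Finset.mem_union.1 hp2 with hp2 | hp2
        · by_contra hcon
          exact (Finset.mem_compl.1 hp2) (Finset.mem_filter.2 ⟨Finset.mem_univ _, not_le.1 hcon⟩)
        · exact (h1 p.2 hp2).ge
      · obtain ⟨hp1, hp2⟩ := Finset.mem_product.1 hp
        rw [Finset.mem_singleton.1 hp2, hc]
        exact (h1 p.1 hp1).le
  · rintro ⟨A, hA, u, hu, h1, h2⟩
    have hlt : ∀ i ∈ A, ∑ j, u j * x i j < ∑ j, u j * x i₀ j := fun i hi =>
      h1 (i, i₀) (Finset.mem_product.2 ⟨hi, Finset.mem_singleton_self _⟩)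
    have hge : ∀ i, i ∈ Aᶜ ∪ T → ∑ j, u j * x i₀ j ≤ ∑ j, u j * x i j := fun i hi =>
      h2 (i₀, i) (Finset.mem_union_left _ (Finset.mem_product.2 ⟨Finset.mem_singleton_self _, hi⟩))
    have hle : ∀ i ∈ T, ∑ j, u j * x i j ≤ ∑ j, u j * x i₀ j := fun i hi =>
      h2 (i, i₀) (Finset.mem_union_right _ (Finset.mem_product.2 ⟨hi,
        Finset.mem_singleton_self _⟩))
    refine ⟨hT, u, ∑ j, u j * x i₀ j, hu, fun i hi =>
      le_antisymm (hle i hi) (hge i (Finset.mem_union_right _ hi)), ?_⟩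
    rw [← Finset.mem_powersetCard_univ.1 hA]
    congr 1
    ext i
    simp only [Finset.mem_filter, Finset.mem_univ, true_and]
    constructor
    · intro hi
      by_contra hiA
      exact absurd (hge i (Finset.mem_union_left _ (Finset.mem_compl.2 hiA))) (not_le.2 hi)
    · exact hlt i

lemma measurableSet_isKH (k : ℕ) (T : Finset (Fin n)) :
    MeasurableSet {x : Fin n → Fin (m + 1) → ℝ | IsKH (fl x) k T} := by
  classical
  by_cases hT : T.card = m + 1
  · obtain ⟨i₀, hi₀⟩ : T.Nonempty := by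
      rw [← Finset.card_pos]
      omega
    have h : {x : Fin n → Fin (m + 1) → ℝ | IsKH (fl x) k T} =
        ⋃ A ∈ (Finset.univ : Finset (Fin n)).powersetCard k, {x : Fin n → Fin (m + 1) → ℝ |
          Ineq (A ×ˢ {i₀}) (({i₀} ×ˢ (Aᶜ ∪ T)) ∪ (T ×ˢ {i₀})) x} := by
      ext x
      rw [Set.mem_iUnion₂]
      change IsKH (fl x) k T ↔ _
      rw [isKH_iff x k T hT i₀ hi₀]
      constructor
      · rintro ⟨A, hA, h⟩
        exact ⟨A, hA, h⟩
      · rintro ⟨A, hA, h⟩
        exact ⟨A, hA, h⟩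
    rw [h]
    exact Finset.measurableSet_biUnion _ fun A _ => measurableSet_ineq _ _
  · have h : {x : Fin n → Fin (m + 1) → ℝ | IsKH (fl x) k T} = ∅ := by
      ext x
      constructor
      · intro h
        exact absurd h.1 hT
      · intro h
        exact absurd h (Set.notMem_empty x)
    rw [h]
    exact MeasurableSet.empty

lemma measurable_card {Ω : Type} [MeasurableSpace Ω] (p : Finset (Fin n) → Ω → Prop)
    (hp : ∀ T, MeasurableSet {x | p T x}) :
    Measurable fun x => Nat.card {T : Finset (Fin n) // p T x} := by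
  classical
  have h : (fun x => Nat.card {T : Finset (Fin n) // p T x}) = fun x =>
      ∑ T : Finset (Fin n), if p T x then 1 else 0 := by
    funext x
    rw [Nat.card_eq_fintype_card, Fintype.card_subtype, Finset.card_filter]
  rw [h]
  exact Finset.measurable_sum _ fun T _ => Measurable.ite (hp T) measurable_const measurable_const

lemma measurable_isKH (k : ℕ) : Measurable fun x : Fin n → Fin (m + 1) → ℝ =>
    Nat.card {T : Finset (Fin n) // IsKH (fl x) k T} :=
  measurable_card (fun T x => IsKH (fl x) k T) fun T => measurableSet_isKH k T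

lemma measurableSet_sep (k : ℕ) (hk1 : 1 ≤ k) (hk2 : k < n) (S : Finset (Fin n)) :
    MeasurableSet {x : Fin n → Fin (m + 1) → ℝ | S.card = k ∧ Sep x S} := by
  classical
  by_cases hS : S.card = k
  · obtain ⟨i₀, hi₀⟩ : S.Nonempty := by
      rw [← Finset.card_pos]
      omega
    obtain ⟨i₁, hi₁⟩ : Sᶜ.Nonempty := by
      rw [← Finset.card_pos, Finset.card_compl, Fintype.card_fin]
      omega
    have h : {x : Fin n → Fin (m + 1) → ℝ | S.card = k ∧ Sep x S} =
        {x : Fin n → Fin (m + 1) → ℝ | Ineq (S ×ˢ Sᶜ) ∅ x} := by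
      ext x
      constructor
      · rintro ⟨-, u, c, hSu⟩
        have h1 : ∀ i ∈ S, ∑ j, u j * x i j < c := by
          intro i hi
          rw [hSu] at hi
          exact (Finset.mem_filter.1 hi).2
        have h2 : ∀ i ∈ Sᶜ, c ≤ ∑ j, u j * x i j := by
          intro i hi
          rw [hSu] at hi
          by_contra hcon
          exact (Finset.mem_compl.1 hi) (Finset.mem_filter.2 ⟨Finset.mem_univ _, not_le.1 hcon⟩)
        refine ⟨u, ?_, ?_, ?_⟩
        · rintro rfl
          have h3 := h1 i₀ hi₀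
          have h4 := h2 i₁ hi₁
          simp only [Pi.zero_apply, zero_mul, Finset.sum_const_zero] at h3 h4
          linarith
        · intro p hp
          obtain ⟨hp1, hp2⟩ := Finset.mem_product.1 hp
          exact lt_of_lt_of_le (h1 _ hp1) (h2 _ hp2)
        · intro p hp
          exact absurd hp (Finset.notMem_empty p)
      · rintro ⟨u, hu, h1, -⟩
        have hne : Sᶜ.Nonempty := ⟨i₁, hi₁⟩
        refine ⟨hS, u, Sᶜ.inf' hne fun i => ∑ j, u j * x i j, ?_⟩
        ext i
        simp only [Finset.mem_filter, Finset.mem_univ, true_and]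
        rw [Finset.lt_inf'_iff]
        constructor
        · intro hi i' hi'
          exact h1 (i, i') (Finset.mem_product.2 ⟨hi, hi'⟩)
        · intro hi
          by_contra hiS
          exact lt_irrefl _ (hi i (Finset.mem_compl.2 hiS))
    rw [h]
    exact measurableSet_ineq _ _
  · have h : {x : Fin n → Fin (m + 1) → ℝ | S.card = k ∧ Sep x S} = ∅ := by
      ext x
      constructor
      · intro h
        exact absurd h.1 hS
      · intro h
        exact absurd h (Set.notMem_empty x)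
    rw [h]
    exact MeasurableSet.empty

lemma measurable_sep (k : ℕ) (hk1 : 1 ≤ k) (hk2 : k < n) :
    Measurable fun x : Fin n → Fin (m + 1) → ℝ =>
      Nat.card {S : Finset (Fin n) // S.card = k ∧ Sep x S} :=
  measurable_card (fun S x => S.card = k ∧ Sep x S) fun S => measurableSet_sep k hk1 hk2 S

end Pool.Agent.N378.KH
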