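import Pool.Agent.N378.KH.Main2

/-!
# Smoothed number of k-sets: the number of k-sets in terms of the numbers of k-hyperplanes
-/

set_option autoImplicit false

open MeasureTheory Finset
open scoped ENNReal

namespace Pool.Agent.N378.KH

variable {n m : ℕ}

/-- a hyperplane through the points in `T` -/
noncomputable def hyp (x : Fin n → Fin (m + 1) → ℝ) (T : Finset (Fin n)) :
    (Fin (m + 1) → ℝ) × ℝ := by
  classical
  exact if h : ∃ uc : (Fin (m + 1) → ℝ) × ℝ, uc.1 ≠ 0 ∧ ∀ i ∈ T, ∑ j, uc.1 j * x i j = uc.2 then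
    Classical.choose h else 0

/-- the two sides of this hyperplane -/
noncomputable def side (x : Fin n → Fin (m + 1) → ℝ) (T : Finset (Fin n)) (b : Bool) :
    Finset (Fin n) :=
  if b then Finset.univ.filter fun i => ∑ j, (hyp x T).1 j * x i j < (hyp x T).2
  else Finset.univ.filter fun i => (hyp x T).2 < ∑ j, (hyp x T).1 j * x i j

lemma side_spec (hUNI : S_UNI) (x : Fin n → Fin (m + 1) → ℝ) (hn : m + 2 ≤ n) (hg : GenPos x)
    (T : Finset (Fin n)) (hT : T.card = m + 1) (u : Fin (m + 1) → ℝ) (c : ℝ) (hu : u ≠ 0)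
    (h : ∀ i ∈ T, ∑ j, u j * x i j = c) :
    ∃ b, side x T b = Finset.univ.filter fun i => ∑ j, u j * x i j < c := by
  classical
  have hex : ∃ uc : (Fin (m + 1) → ℝ) × ℝ, uc.1 ≠ 0 ∧ ∀ i ∈ T, ∑ j, uc.1 j * x i j = uc.2 :=
    ⟨(u, c), hu, h⟩
  have hsp : (hyp x T).1 ≠ 0 ∧ ∀ i ∈ T, ∑ j, (hyp x T).1 j * x i j = (hyp x T).2 := by
    unfold hyp
    rw [dif_pos hex]
    exact Classical.choose_spec hex
  obtain ⟨τ, hτ, h1, h2⟩ := hUNI n m x hn hg T u (hyp x T).1 c (hyp x T).2 hT hu hsp.1 h hsp.2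
  have h3 : ∀ i, ∑ j, (hyp x T).1 j * x i j = τ * ∑ j, u j * x i j := by
    intro i
    rw [h1, Finset.mul_sum]
    refine Finset.sum_congr rfl fun j _ => ?_
    rw [Pi.smul_apply, smul_eq_mul, mul_assoc]
  rcases lt_or_gt_of_ne hτ with hneg | hpos
  · refine ⟨false, ?_⟩
    ext i
    simp only [side, Bool.false_eq_true, if_false, Finset.mem_filter, Finset.mem_univ, true_and]
    rw [h3, h2]
    exact mul_lt_mul_left_of_neg hneg
  · refine ⟨true, ?_⟩
    ext i
    simp only [side, if_true, Finset.mem_filter, Finset.mem_univ, true_and]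
    rw [h3, h2]
    exact mul_lt_mul_iff_right₀ hpos

/-- the number of `k`-sets -/
lemma card_ksets_le (hKS : S_KS) (hUNI : S_UNI) (x : Fin n → Fin (m + 1) → ℝ) (hn : m + 2 ≤ n)
    (hg : GenPos x) (k : ℕ) (hk1 : 1 ≤ k) (hk2 : k < n) :
    Nat.card {S : Finset (Fin n) // S.card = k ∧ Sep x S} ≤
      ∑ t ∈ Finset.range (m + 2), 2 * (m + 1).choose t *
        Nat.card {T : Finset (Fin n) // IsKH (fl x) (k - t) T} := by
  classical
  set K : ℕ → Finset (Finset (Fin n)) := fun t =>
    Finset.univ.filter fun T => IsKH (fl x) (k - t) T with hK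
  have hKc : ∀ t, Nat.card {T : Finset (Fin n) // IsKH (fl x) (k - t) T} = (K t).card := by
    intro t
    rw [Nat.card_eq_fintype_card, Fintype.card_subtype]
  have hsub : (Finset.univ.filter fun S : Finset (Fin n) => S.card = k ∧ Sep x S) ⊆
      (Finset.range (m + 2)).biUnion fun t => (K t).biUnion fun T =>
        (T.powersetCard t).biUnion fun T' => Finset.univ.image fun b : Bool => side x T b ∪ T' := by
    intro S hS
    obtain ⟨hSk, hSep⟩ := (Finset.mem_filter.1 hS).2
    have hne : S.Nonempty := by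
      rw [← Finset.card_pos]
      omega
    have hnu : S ≠ Finset.univ := by
      rintro rfl
      rw [Finset.card_univ, Fintype.card_fin] at hSk
      omega
    obtain ⟨T, u, c, hT, hu, h1, h2, h3⟩ := hKS n m x (by omega) hg S hne hnu hSep
    have hbel : (Finset.univ.filter fun i => ∑ j, u j * x i j < c) = S \ T := by
      ext i
      simp only [Finset.mem_filter, Finset.mem_univ, true_and, Finset.mem_sdiff]
      constructor
      · intro hi
        have hiT : i ∉ T := fun h => absurd (h1 i h) (ne_of_lt hi)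
        refine ⟨?_, hiT⟩
        by_contra hiS
        exact absurd (h3 i hiS hiT) (not_lt_of_gt hi)
      · rintro ⟨hiS, hiT⟩
        exact h2 i hiS hiT
    have ht : (S ∩ T).card ≤ m + 1 := hT ▸ Finset.card_le_card Finset.inter_subset_right
    have hcard : (S \ T).card = k - (S ∩ T).card := by
      have := Finset.card_sdiff_add_card_inter S T
      omega
    refine Finset.mem_biUnion.2 ⟨(S ∩ T).card, Finset.mem_range.2 (by omega), ?_⟩
    refine Finset.mem_biUnion.2 ⟨T, ?_, ?_⟩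
    · rw [hK]
      refine Finset.mem_filter.2 ⟨Finset.mem_univ _, hT, u, c, hu, h1, ?_⟩
      rw [← hcard, ← hbel]
      rfl
    refine Finset.mem_biUnion.2 ⟨S ∩ T, ?_, ?_⟩
    · exact Finset.mem_powersetCard.2 ⟨Finset.inter_subset_right, rfl⟩
    obtain ⟨b, hb⟩ := side_spec hUNI x hn hg T hT u c hu h1
    refine Finset.mem_image.2 ⟨b, Finset.mem_univ _, ?_⟩
    rw [hb, hbel, Finset.sdiff_union_inter]
  rw [Nat.card_eq_fintype_card, Fintype.card_subtype]
  refine le_trans (Finset.card_le_card hsub) ?_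
  refine le_trans Finset.card_biUnion_le ?_
  refine Finset.sum_le_sum fun t _ => ?_
  refine le_trans Finset.card_biUnion_le ?_
  rw [hKc]
  refine le_trans (Finset.sum_le_card_nsmul _ _ (2 * (m + 1).choose t) ?_) ?_
  · intro T hT
    have hTc : T.card = m + 1 := (Finset.mem_filter.1 hT).2.1
    refine le_trans Finset.card_biUnion_le ?_
    refine le_trans (Finset.sum_le_card_nsmul _ _ 2 ?_) ?_
    · intro T' _
      exact le_trans Finset.card_image_le (by simp)
    · rw [Finset.card_powersetCard, hTc, smul_eq_mul, mul_comm]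
  · rw [smul_eq_mul, mul_comm]

/-- the expected number of `k`-sets -/
theorem ksets (hKS : S_KS) (hUNI : S_UNI) (P : Measure (Fin n → Fin (m + 1) → ℝ))
    (hg : ∀ᵐ x ∂P, GenPos x) (B : ℝ)
    (h : ∀ k, ∃ G : (Fin n → Fin (m + 1) → ℝ) → ℝ≥0∞, Measurable G ∧
      (∀ᵐ x ∂P, (Nat.card {T : Finset (Fin n) // IsKH (fl x) k T} : ℝ≥0∞) ≤ G x) ∧
      ∫⁻ x, G x ∂P ≤ ENNReal.ofReal B)
    (hn : m + 2 ≤ n) (k : ℕ) (hk1 : 1 ≤ k) (hk2 : k < n) :
    ∫⁻ x, (Nat.card {S : Finset (Fin n) // S.card = k ∧ Sep x S} : ℝ≥0∞) ∂P ≤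
      ENNReal.ofReal (2 ^ (m + 2) * B) := by
  choose G hG1 hG2 hG3 using h
  calc ∫⁻ x, (Nat.card {S : Finset (Fin n) // S.card = k ∧ Sep x S} : ℝ≥0∞) ∂P
      ≤ ∫⁻ x, ∑ t ∈ Finset.range (m + 2), ((2 * (m + 1).choose t : ℕ) : ℝ≥0∞) *
        G (k - t) x ∂P := by
        refine lintegral_mono_ae ?_
        filter_upwards [hg, ae_all_iff.2 fun k => hG2 k] with x hx hx2
        refine le_trans (b := ∑ t ∈ Finset.range (m + 2), ((2 * (m + 1).choose t : ℕ) : ℝ≥0∞) *
          (Nat.card {T : Finset (Fin n) // IsKH (fl x) (k - t) T} : ℝ≥0∞)) ?_ ?_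
        · exact_mod_cast card_ksets_le hKS hUNI x hn hx k hk1 hk2
        · refine Finset.sum_le_sum fun t _ => ?_
          exact mul_le_mul' le_rfl (hx2 (k - t))
    _ = ∑ t ∈ Finset.range (m + 2), ((2 * (m + 1).choose t : ℕ) : ℝ≥0∞) *
        ∫⁻ x, G (k - t) x ∂P := by
        rw [lintegral_finsetSum _ fun t _ => (hG1 (k - t)).const_mul _]
        refine Finset.sum_congr rfl fun t _ => ?_
        rw [lintegral_const_mul _ (hG1 (k - t))]
    _ ≤ ∑ t ∈ Finset.range (m + 2), ((2 * (m + 1).choose t : ℕ) : ℝ≥0∞) *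
        ENNReal.ofReal B := by
        refine Finset.sum_le_sum fun t _ => ?_
        exact mul_le_mul' le_rfl (hG3 (k - t))
    _ = ENNReal.ofReal (2 ^ (m + 2) * B) := by
        rw [← Finset.sum_mul, ← Nat.cast_sum, ← Finset.mul_sum, Nat.sum_range_choose,
          ENNReal.ofReal_mul (by positivity)]
        congr 1
        rw [ENNReal.ofReal_pow (by norm_num), ENNReal.ofReal_ofNat]
        push_cast
        ring

end Pool.Agent.N378.KH
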