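import Mathlib

/-!
# Smoothed number of k-hyperplanes in all dimensions: statements of the parts
-/

set_option autoImplicit false

open MeasureTheory Finset
open scoped ENNReal

namespace Pool.Agent.N378.KH

variable {n m : ℕ}

/-- the point `x i` of `ℝ^(m+1)` has the coordinates `x (i, j)`; this is its height in direction `j`
over the hyperplane with slopes `a` -/
def ht (j : Fin (m + 1)) (a : Fin m → ℝ) (x : Fin n × Fin (m + 1) → ℝ) (i : Fin n) : ℝ :=
  x (i, j) - ∑ l, a l * x (i, j.succAbove l)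

/-- the points outside `Q` which are lower than the point `p` -/
noncomputable def below (j : Fin (m + 1)) (s : ℝ) (a : Fin m → ℝ) (x : Fin n × Fin (m + 1) → ℝ)
    (Q : Finset (Fin n)) (p : Fin n) : Finset (Fin n) :=
  Finset.univ.filter fun i => i ∉ Q ∧ s * ht j a x i < s * ht j a x p

/-- the slopes in the cube for which exactly `k` points outside `Q` are lower than `p` -/
def slopes (j : Fin (m + 1)) (s : ℝ) (k : ℕ) (Q : Finset (Fin n)) (p : Fin n)
    (x : Fin n × Fin (m + 1) → ℝ) : Set (Fin m → ℝ) :=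
  {a | (∀ l, |a l| ≤ 1) ∧ (below j s a x Q p).card = k}

/-- all points are in the cube, and the points in `Q` and `p` are at the same height for some slopes
for which exactly `k` points outside `Q` are lower -/
def Ev (j : Fin (m + 1)) (s : ℝ) (k : ℕ) (Q : Finset (Fin n)) (p : Fin n) :
    Set (Fin n × Fin (m + 1) → ℝ) :=
  {x | (∀ e, |x e| ≤ 1) ∧ ∃ a ∈ slopes j s k Q p x, ∀ q ∈ Q, ht j a x q = ht j a x p}

/-- The points `x i`, `i ∈ T`, lie on a hyperplane `∑ j, u j y j = c` on one side of which there are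
exactly `k` of the points. -/
def IsKH (x : Fin n × Fin (m + 1) → ℝ) (k : ℕ) (T : Finset (Fin n)) : Prop :=
  T.card = m + 1 ∧ ∃ (u : Fin (m + 1) → ℝ) (c : ℝ), u ≠ 0 ∧ (∀ i ∈ T, ∑ j, u j * x (i, j) = c) ∧
    (Finset.univ.filter fun i => ∑ j, u j * x (i, j) < c).card = k

/-- the law of the coordinates: supported on `[-1, 1]`, with density at most `D` -/
def Law (D : ℝ) (ν : Fin n × Fin (m + 1) → Measure ℝ) : Prop :=
  (∀ e, IsProbabilityMeasure (ν e)) ∧
    ∀ e, ν e ≤ ENNReal.ofReal D • volume.restrict (Set.Icc (-1 : ℝ) 1)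

/-- KH/COV -/
def S_COV : Prop := ∀ (n m k : ℕ) (x : Fin n × Fin (m + 1) → ℝ), (∀ e, |x e| ≤ 1) →
  ∀ T : Finset (Fin n), IsKH x k T → ∃ (j : Fin (m + 1)) (b : Bool), ∀ p ∈ T,
    x ∈ Ev j (if b then 1 else -1) k (T.erase p) p

/-- KH/MEAS -/
def S_MEAS : Prop := ∀ (n m k : ℕ) (j : Fin (m + 1)) (s : ℝ) (Q : Finset (Fin n)) (p : Fin n),
  MeasurableSet (Ev (n := n) (m := m) j s k Q p)

/-- KH/MV -/
def S_MV : Prop := ∀ (n m k : ℕ) (j : Fin (m + 1)) (s : ℝ) (Q : Finset (Fin n)) (p : Fin n),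
  (∀ x, MeasurableSet (slopes (n := n) (m := m) j s k Q p x)) ∧
    Measurable fun x : Fin n × Fin (m + 1) → ℝ => volume (slopes (n := n) (m := m) j s k Q p x)

/-- KH/PIM: the product measure is at most a multiple of the volume -/
def S_PIM : Prop := ∀ (n m : ℕ) (D : ℝ) (ν : Fin n × Fin (m + 1) → Measure ℝ), 0 < D → Law D ν →
  ∀ (S : Finset (Fin n × Fin (m + 1))),
    Measure.pi (fun e : S => ν e) ≤ ENNReal.ofReal D ^ S.card • (volume : Measure (S → ℝ))

/-- KH/LIN: for fixed positions of the other points and of the other coordinates of the points in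
`Q`, the volume of the set of the `j`-th coordinates of the points in `Q` for which the event
happens -/
def S_LIN : Prop := ∀ (n m k : ℕ) (j : Fin (m + 1)) (s : ℝ) (Q : Finset (Fin n)) (p : Fin n),
  Q.card = m → p ∉ Q → ∀ x : Fin n × Fin (m + 1) → ℝ,
    volume {y : (Q ×ˢ {j} : Finset (Fin n × Fin (m + 1))) → ℝ |
      Function.updateFinset x (Q ×ˢ {j}) y ∈ Ev j s k Q p} ≤
        ENNReal.ofReal (m.factorial * 2 ^ m) * volume (slopes j s k Q p x)

/-- KH/RANK -/
def S_RANK : Prop := ∀ (n m k : ℕ) (j : Fin (m + 1)) (s : ℝ) (Q : Finset (Fin n)), s ≠ 0 →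
  ∀ x : Fin n × Fin (m + 1) → ℝ, (∀ i i', i ≠ i' → ∃ e, x (i, e) ≠ x (i', e)) →
    ∑ p ∈ Qᶜ, volume (slopes j s k Q p x) ≤ 2 ^ m

/-- KH/DIST -/
def S_DIST : Prop := ∀ (n m : ℕ) (D : ℝ) (ν : Fin n × Fin (m + 1) → Measure ℝ), 0 < D → Law D ν →
  ∀ᵐ x ∂Measure.pi ν, (∀ e, |x e| ≤ 1) ∧ ∀ i i' : Fin n, i ≠ i' → ∃ e, x (i, e) ≠ x (i', e)

/-- KH/MAIN: the number of the sets of `m + 1` points on a k-hyperplane -/
def S_MAIN : Prop := ∀ (n m k : ℕ) (D : ℝ) (ν : Fin n × Fin (m + 1) → Measure ℝ), 0 < D →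
  Law D ν → ∫⁻ x, (Nat.card {T : Finset (Fin n) // IsKH x k T} : ℝ≥0∞) ∂Measure.pi ν ≤
    ENNReal.ofReal (2 * (4 * D * n) ^ m)

end Pool.Agent.N378.KH
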